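import Pool.Agent.Q35.DP.Plan

/-! Job KERA of project DP: derivations with vanishing determinant. -/

set_option autoImplicit false

namespace Pool.Agent.Q178.DP

open FF Pool.Agent.W603.LV Pool.Agent.TH145.GH Pool.Agent.Y166.DP Pool.Agent.Q35.DP

section
variable {k K : Type} [Field k] [Field K] [Algebra k K] [CharZero k] [IsAlgClosed k] [IsFF k K]

/-- A point with constant ratios has height zero. -/
theorem ht_const {g : Fin 3 → K} {j : Fin 3} (hj : g j ≠ 0) {c : Fin 3 → k}
    (hc : ∀ i, g i = g j * algebraMap k K (c i)) : ht k g = 0 := by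
  have hcj : c j = 1 := by
    have h1 := hc j
    have h2 : g j * 1 = g j * algebraMap k K (c j) := by rw [mul_one]; exact h1
    have h3 := mul_left_cancel₀ hj h2
    rw [← map_one (algebraMap k K)] at h3
    exact ((algebraMap k K).injective h3).symm
  have h0 : (fun i => algebraMap k K (c i)) ≠ 0 := by
    intro h
    have := congrFun h j
    simp [hcj] at this
  have e : g = fun i => g j * algebraMap k K (c i) := funext hc
  rw [e, ht_smul h0 hj]
  unfold ht
  have h1 : ∀ P : Place k K, mo P (fun i => algebraMap k K (c i)) = 0 := by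
    intro P
    rw [mo_eq P (g := fun i => algebraMap k K (c i)) (i := j)]
    · simp only [hcj, map_one]
      exact P.ord_one
    · simp [hcj]
    · intro i
      simp only [hcj, map_one]
      rw [P.ord_one]
      exact Ge.const (c i)
  simp [h1]

/-- A function without poles is constant. -/
theorem const_of_ge {f : K} (h : ∀ P : Place k K, Ge P 0 f) : ∃ c : k, f = algebraMap k K c := by
  apply const_of_hgt (k := k)
  unfold hgt
  have h1 : ∀ P : Place k K, max (-P.ord f) 0 = 0 := by
    intro P
    apply max_eq_right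
    rcases h P with h | h
    · rw [h, P.ord_zero]; norm_num
    · omega
  simp [h1]

end

theorem kera : StmReg → StmKS → StmPres → StmInf → StmBasis → StmNo1 → StmDel → S_KERA := by
  intro hReg hKS hPres hInf hBasis hNo1 hDel k K _ _ _ _ _ _ lam x y hE d c hd hht hgen δ hδx D D'
    hl hD'x hwr
  obtain ⟨o, hox, hoy, ho⟩ := hInf k K lam x y hE
  obtain ⟨-, -, hb⟩ := hBasis k K lam x y hE o (by omega)
  obtain ⟨δ₀, hδ₀x, hδ₀y, hδ₀0, hδ₀v⟩ := hDel k K lam x y hE
  have hx0 := Ell.x0 hE
  have hy0 := Ell.y0 hE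
  have hcz : CharZero K := charZero_of_injective_algebraMap (algebraMap k K).injective
  have h2 : (2 : K) ≠ 0 := two_ne_zero
  have hδ0 : δ ≠ 0 := by
    intro h
    rw [h] at hδx
    exact mul_ne_zero h2 hy0 hδx.symm
  obtain ⟨g, hg⟩ : ∃ g : Fin 3 → K, g = fun i => fsum x y fun j => c (i, j) := ⟨_, rfl⟩
  have hgi : ∀ i, (fsum x y fun j => c (i, j)) = g i := fun i => by rw [hg]
  simp only [hgi] at hht hgen hwr ⊢
  change ht k g = d at hht
  have hg0 : g ≠ 0 := by
    intro h
    rw [h] at hht
    unfold ht at hht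
    have h1 : ∀ P : Place k K, mo P (fun i => (0 : Fin 3 → K) i) = 0 := fun P => mo_zero P
    simp only [h1, finsum_zero, neg_zero] at hht
    omega
  -- (a)
  have hnot : ∀ v0 v1 : K, v1 ≠ 0 → (∀ i, v0 * g i + v1 * δ (g i) = 0) → False := by
    intro v0 v1 hv h
    obtain ⟨j, hj⟩ := Function.ne_iff.1 hg0
    have hj : g j ≠ 0 := hj
    have h1 : ∀ i, ∃ a : k, g i / g j = algebraMap k K a := by
      intro i
      apply const_of_der hδ0
      rw [div_eq_mul_inv, δ.leibniz, Derivation.leibniz_inv]
      simp only [smul_eq_mul]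
      have e1 := h i
      have e2 := h j
      field_simp
      have e3 : v1 * (g j * δ (g i) - g i * δ (g j)) = 0 := by linear_combination g j * e1 - g i * e2
      have e4 := (mul_eq_zero.1 e3).resolve_left hv
      linear_combination e4
    choose a ha using h1
    have h3 : ht k g = 0 := ht_const hj (c := a) fun i => by
      rw [← ha i]; field_simp
    omega
  have hAB : ∃ A B : K, ∀ i, D' (g i) = A * g i + B * δ (g i) := by
    unfold Pool.Agent.Y166.DP.wr at hwr
    obtain ⟨v, hv0, hv⟩ := Matrix.exists_vecMul_eq_zero_iff.2 hwr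
    have hvi : ∀ i, v 0 * g i + v 1 * δ (g i) + v 2 * D' (g i) = 0 := by
      intro i
      have := congrFun hv i
      rw [Matrix.vecMul, dotProduct, Fin.sum_univ_three] at this
      simpa using this
    have hv2 : v 2 ≠ 0 := by
      intro h0
      by_cases hv1 : v 1 = 0
      · have hv00 : v 0 ≠ 0 := by
          intro h
          apply hv0
          funext i
          fin_cases i
          · exact h
          · exact hv1
          · exact h0
        obtain ⟨j, hj⟩ := Function.ne_iff.1 hg0
        have h1 := hvi j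
        rw [hv1, h0, zero_mul, zero_mul, add_zero, add_zero] at h1
        exact (mul_ne_zero hv00 hj) h1
      · refine hnot (v 0) (v 1) hv1 fun i => ?_
        have h1 := hvi i
        rwa [h0, zero_mul, add_zero] at h1
    refine ⟨-v 0 / v 2, -v 1 / v 2, fun i => ?_⟩
    have h1 := hvi i
    field_simp
    linear_combination h1
  obtain ⟨A, B, hAB⟩ := hAB
  -- (b)
  obtain ⟨D2, hD2⟩ : ∃ D2 : Derivation ℤ K K, ∀ f, D2 f = D' f - B * δ f :=
    ⟨D' - B • (δ.restrictScalars ℤ), fun f => by simp⟩
  have hl2 : Lifts D D2 := by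
    intro a
    rw [hD2, hl, Derivation.map_algebraMap, mul_zero, sub_zero]
  have hS2 : Sem k D2 := fun a => ⟨_, hl2 a⟩
  have hS' : Sem k D' := fun a => ⟨_, hl a⟩
  have hD2g : ∀ i, D2 (g i) = A * g i := by
    intro i
    rw [hD2, hAB]; ring
  have hreg2 : ∀ (P : Place k K) (f : K), Ge P 0 f → Ge P 0 (D2 f) := by
    intro P
    obtain ⟨i₁, hi₁, e₁⟩ := exists_mo P hg0
    refine hReg k K P D2 hS2 (Set.range fun i => g i / g i₁) ?_ ?_ (hgen i₁ hi₁)
    · rintro _ ⟨i, rfl⟩
      simp only
      rw [div_eq_mul_inv, D2.leibniz, Derivation.leibniz_inv]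
      simp only [smul_eq_mul]
      rw [hD2g, hD2g]
      field_simp
      ring
    · rintro _ ⟨i, rfl⟩
      apply Ge.of_mul' (h := g i₁) (m := mo P g) hi₁ e₁
      simp only
      rw [mul_div_cancel₀ _ hi₁, zero_add]
      exact ge_mo P g i
  -- (c)
  obtain ⟨hDlam, b', hb'x, hb'y⟩ := hKS k K lam x y hE D D2 hl2 hreg2
  have hB : B = algebraMap k K (-b') := by
    have h1 : D2 x = - B * (2 * y) := by rw [hD2, hD'x, hδx]; ring
    rw [h1] at hb'x
    have h3 := mul_right_cancel₀ (mul_ne_zero h2 hy0) hb'x
    rw [map_neg, ← h3, neg_neg]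
  have hD'y : D' y = 0 := lift_y hE hl hDlam hD'x
  refine ⟨hDlam, A, -b', fun i => by rw [hAB, hB], fun hb0 => ?_⟩
  -- (d)
  have hB0 : B = 0 := by rw [hB, hb0, map_zero]
  have hreg' : ∀ (P : Place k K) (f : K), Ge P 0 f → Ge P 0 (D' f) := by
    intro P f hf
    have := hreg2 P f hf
    rwa [hD2, hB0, zero_mul, sub_zero] at this
  have hD'g : ∀ i, D' (g i) = A * g i := by
    intro i
    rw [hAB, hB0]; ring
  have hgreg : ∀ i, (∀ P, P ≠ o → Ge P 0 (g i)) ∧ Ge o (-((d + 1 : ℕ) : ℤ)) (g i) := by
    intro i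
    exact (hb (d + 1) (by omega) (g i)).2 ⟨fun j => c (i, j), by rw [hg]⟩
  have hmoo : -((d : ℤ) + 1) ≤ mo o g := by
    apply le_mo o hg0
    intro i
    have := (hgreg i).2
    push_cast at this
    exact this
  have hmoP : ∀ P, P ≠ o → 0 ≤ mo P g := fun P hP => le_mo P hg0 fun i => (hgreg i).1 P hP
  have hAo : Ge o 0 A := by
    obtain ⟨i, hi, ei⟩ := exists_mo o hg0
    set π : K := x / y with hπ
    have hπ0 : π ≠ 0 := div_ne_zero hx0 hy0
    have hπo : o.ord π = 1 := by rw [hπ, o.ord_div hx0 hy0, hox, hoy]; norm_num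
    have hDπ : D' π = 0 := by
      rw [hπ, div_eq_mul_inv, D'.leibniz, Derivation.leibniz_inv, hD'x, hD'y]
      simp
    have h3 := (hPres k K o D' hS').2 π hπo (by rw [hDπ]; exact Ge.zero) _ _ (ge_mo o g i)
    rw [hD'g, mul_comm] at h3
    apply Ge.of_mul' (h := g i) (m := mo o g) hi ei
    rwa [zero_add]
  have hAP : ∀ P, P ≠ o → Ge P (-mo P g) A := by
    intro P hP
    obtain ⟨i, hi, ei⟩ := exists_mo P hg0
    have h3 := hreg' P _ ((hgreg i).1 P hP)
    rw [hD'g, mul_comm] at h3
    apply Ge.of_mul' (h := g i) (m := mo P g) hi ei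
    rwa [neg_add_cancel]
  apply const_of_ge (k := k)
  by_contra hcon
  push Not at hcon
  obtain ⟨z, hz⟩ := hcon
  have hzo : z ≠ o := by
    rintro rfl
    exact hz hAo
  have hmz : 1 ≤ mo z g := by
    have h3 := hmoP z hzo
    by_contra h4
    have h5 : mo z g = 0 := by omega
    have h6 := hAP z hzo
    rw [h5, neg_zero] at h6
    exact hz h6
  -- the sum
  classical
  have hsum : ∀ w, w ≠ o → w ≠ z → mo z g + mo w g ≤ 1 := by
    intro w hwo hwz
    set T : Finset (Place k K) := (mo_supp (k := k) g).toFinset ∪ {o, z, w} with hT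
    have h3 := ht_finset g T (by intro P hP; simp [hT, hP])
    rw [hht] at h3
    have h4 : ({o, z, w} : Finset (Place k K)) ⊆ T := Finset.subset_union_right
    have h5 := Finset.sum_le_sum_of_subset_of_nonneg (f := fun P => mo P g) h4 (by
      intro P _ hP
      apply hmoP
      rintro rfl
      exact hP (by simp))
    rw [Finset.sum_insert (by simp [Ne.symm hzo, Ne.symm hwo]),
      Finset.sum_insert (by simp [Ne.symm hwz]), Finset.sum_singleton] at h5
    omega
  have hz1 : mo z g ≤ 1 := by
    set T : Finset (Place k K) := (mo_supp (k := k) g).toFinset ∪ {o, z} with hT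
    have h3 := ht_finset g T (by intro P hP; simp [hT, hP])
    rw [hht] at h3
    have h4 : ({o, z} : Finset (Place k K)) ⊆ T := Finset.subset_union_right
    have h5 := Finset.sum_le_sum_of_subset_of_nonneg (f := fun P => mo P g) h4 (by
      intro P _ hP
      apply hmoP
      rintro rfl
      exact hP (by simp))
    rw [Finset.sum_insert (by simp [Ne.symm hzo]), Finset.sum_singleton] at h5
    omega
  have hother : ∀ P, P ≠ z → Ge P 0 A := by
    intro P hPz
    by_cases hPo : P = o
    · rw [hPo]; exact hAo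
    · have h3 := hsum P hPo hPz
      have h4 := hmoP P hPo
      have h5 : mo P g = 0 := by omega
      have h6 := hAP P hPo
      rwa [h5, neg_zero] at h6
  have hzA := hAP z hzo
  rcases hzA with h3 | h3
  · apply hz; rw [h3]; exact Ge.zero
  · have h4 : z.ord A < 0 := by
      by_contra h5
      exact hz (Or.inr (by omega))
    exact hNo1 k K lam x y hE A z (by omega) hother

end Pool.Agent.Q178.DP
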