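import Pool.Agent.Q35.DP.Plan

/-! Job KS of project DP: a regular lift of a derivation of the constants. -/

set_option autoImplicit false

namespace Pool.Agent.Q178.DP

open FF Pool.Agent.W603.LV Pool.Agent.TH145.GH Pool.Agent.Y166.DP Pool.Agent.Q35.DP

section
variable {k K : Type} [Field k] [Field K] [Algebra k K]

/-- The function `f` has the value `c` at the place `P`. -/
def Val (P : Place k K) (f : K) (c : k) : Prop := Ge P 1 (f - algebraMap k K c)

variable {P : Place k K} {f g : K} {c d : k}

theorem Val.reg (h : Val P f c) : Ge P 0 f := by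
  have h1 := (Ge.mono (by norm_num : (0 : ℤ) ≤ 1) h).add (Ge.const (P := P) c)
  rwa [sub_add_cancel] at h1

theorem Val.const (P : Place k K) (c : k) : Val P (algebraMap k K c) c := by
  unfold Val
  rw [sub_self]
  exact Ge.zero

theorem Val.add (h : Val P f c) (h' : Val P g d) : Val P (f + g) (c + d) := by
  unfold Val at *
  have h1 := h.add h'
  have e : f + g - algebraMap k K (c + d) = f - algebraMap k K c + (g - algebraMap k K d) := by
    rw [map_add]; ring
  rwa [e]

theorem Val.mul (h : Val P f c) (h' : Val P g d) : Val P (f * g) (c * d) := by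
  have h1 := Ge.mul h h'.reg
  have h2 := (Ge.const (P := P) c).mul h'
  unfold Val
  have e : f * g - algebraMap k K (c * d) =
      (f - algebraMap k K c) * g + algebraMap k K c * (g - algebraMap k K d) := by
    rw [map_mul]; ring
  rw [e]
  refine Ge.add ?_ ?_
  · simpa using h1
  · simpa using h2

theorem Val.neg (h : Val P f c) : Val P (-f) (-c) := by
  have h1 := (Val.const P (-1 : k)).mul h
  rw [map_neg, map_one, neg_one_mul, neg_one_mul] at h1
  exact h1

theorem Val.sub (h : Val P f c) (h' : Val P g d) : Val P (f - g) (c - d) := by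
  rw [sub_eq_add_neg, sub_eq_add_neg]
  exact h.add h'.neg

theorem Val.pow (h : Val P f c) (n : ℕ) : Val P (f ^ n) (c ^ n) := by
  induction n with
  | zero =>
    have := Val.const P (1 : k)
    simpa using this
  | succ n ih =>
    rw [pow_succ, pow_succ]
    exact ih.mul h

theorem Val.unique (h : Val P f c) (h' : Val P f d) : c = d := by
  by_contra hcd
  have h1 := Ge.sub h h'
  have e : f - algebraMap k K c - (f - algebraMap k K d) = algebraMap k K (d - c) := by
    rw [map_sub]; ring
  rw [e] at h1
  have h0 : d - c ≠ 0 := sub_ne_zero.2 (Ne.symm hcd)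
  rcases h1 with h1 | h1
  · exact h0 ((map_eq_zero _).1 h1)
  · rw [P.ord_const h0] at h1
    omega

end

theorem ks : StmInf → StmPts → StmBasis → StmKS := by
  intro hInf hPts hBasis k K _ _ _ _ _ _ lam x y hE D D' hl hreg
  obtain ⟨o, hox, hoy, ho⟩ := hInf k K lam x y hE
  obtain ⟨-, -, hb⟩ := hBasis k K lam x y hE o (by omega)
  obtain ⟨-, hpt, -⟩ := hPts k K lam x y hE
  have hx0 := Ell.x0 hE
  have hy0 := Ell.y0 hE
  have hcz : CharZero K := charZero_of_injective_algebraMap (algebraMap k K).injective
  have h2 : (2 : K) ≠ 0 := two_ne_zero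
  -- the pole at infinity
  have hinf : Ge o (-(3 : ℕ) : ℤ) (D' x) := by
    set π : K := x / y with hπ
    have hπ0 : π ≠ 0 := div_ne_zero hx0 hy0
    have hπo : o.ord π = 1 := by rw [hπ, o.ord_div hx0 hy0, hox, hoy]; norm_num
    have hu : Ge o 0 (x * π ^ 2) := by
      right
      rw [o.ord_mul hx0 (pow_ne_zero _ hπ0), o.ord_pow, hox, hπo]
      norm_num
    have h3 := hreg o _ hu
    have h4 : Ge o 0 (D' π) := hreg o _ (Or.inr (by omega))
    have h5 : D' (x * π ^ 2) = π ^ 2 * D' x + 2 * x * π * D' π := by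
      rw [D'.leibniz, D'.leibniz_pow]
      simp only [smul_eq_mul, nsmul_eq_mul]
      push_cast
      ring
    have h6 : Ge o (-1) (2 * x * π * D' π) := by
      have h7 : Ge o 0 (2 : K) := by exact_mod_cast Ge.natCast (P := o) 2
      have h8 : Ge o (-2) x := Or.inr hox.ge
      have h9 : Ge o 1 π := Or.inr hπo.ge
      have := ((h7.mul h8).mul h9).mul h4
      simpa using this
    have h7 : Ge o (-1) (π ^ 2 * D' x) := by
      have h8 := (h3.mono (by norm_num : (-1 : ℤ) ≤ 0)).sub h6
      have e : D' (x * π ^ 2) - 2 * x * π * D' π = π ^ 2 * D' x := by rw [h5]; ring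
      rwa [e] at h8
    apply Ge.of_mul' (h := π ^ 2) (m := 2) (pow_ne_zero _ hπ0)
    · rw [o.ord_pow, hπo]; norm_num
    · simpa using h7
  obtain ⟨c, hc⟩ := (hb 3 (by norm_num) (D' x)).1 ⟨fun P hP => hreg P _ (ho P hP).1, hinf⟩
  obtain ⟨α, hα⟩ : ∃ α : k, α = c 0 := ⟨_, rfl⟩
  obtain ⟨β, hβ⟩ : ∃ β : k, β = c 1 := ⟨_, rfl⟩
  obtain ⟨γ, hγ⟩ : ∃ γ : k, γ = c 2 := ⟨_, rfl⟩
  have hDx : D' x = algebraMap k K α + algebraMap k K β * x + algebraMap k K γ * y := by
    rw [hc]
    unfold fsum
    rw [Fin.sum_univ_three, ← hα, ← hβ, ← hγ]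
    simp [fn]
  -- the derivative of the equation
  have heq : 2 * y * D' y = cub' lam x * D' x + algebraMap k K (D lam) * (x - x ^ 2) := by
    have h1 := congrArg D' hE.eqn
    have e1 : D' (algebraMap k K lam) = algebraMap k K (D lam) := hl lam
    have e2 : D' (1 : K) = 0 := D'.map_one_eq_zero
    rw [D'.leibniz_pow, D'.leibniz, D'.leibniz, map_sub, map_sub, e1, e2] at h1
    simp only [smul_eq_mul, nsmul_eq_mul] at h1
    push_cast at h1
    unfold cub'
    linear_combination h1
  have hval : ∀ a : k, (0 : k) ^ 2 = a * (a - 1) * (a - lam) →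
      (3 * a ^ 2 - 2 * (1 + lam) * a + lam) * (α + β * a) + D lam * (a - a ^ 2) = 0 := by
    intro a ha
    obtain ⟨P, hPx, hPy⟩ := hpt a 0 ha
    have vx : Val P x a := hPx
    have vy : Val P y 0 := hPy
    obtain ⟨e, he⟩ := exists_const P (hreg P _ vy.reg)
    have ve : Val P (D' y) e := he
    have v1 : Val P (2 * y * D' y) (2 * 0 * e) := by
      have := ((Val.const P (2 : k)).mul vy).mul ve
      rwa [map_ofNat] at this
    have v2 : Val P (cub' lam x * D' x + algebraMap k K (D lam) * (x - x ^ 2))
        ((3 * a ^ 2 - 2 * (1 + lam) * a + lam) * (α + β * a + γ * 0) + D lam * (a - a ^ 2)) := by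
      refine Val.add (Val.mul ?_ ?_) ((Val.const P _).mul (vx.sub (vx.pow 2)))
      · unfold cub'
        refine Val.add (Val.sub ?_ ?_) (Val.const P _)
        · have := (Val.const P (3 : k)).mul (vx.pow 2)
          rwa [map_ofNat] at this
        · have := ((Val.const P (2 : k)).mul (Val.const P (1 + lam))).mul vx
          rwa [map_ofNat, map_add, map_one] at this
      · rw [hDx]
        exact ((Val.const P _).add ((Val.const P _).mul vx)).add ((Val.const P _).mul vy)
    rw [← heq] at v2
    have := v1.unique v2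
    linear_combination -this
  have hα0 : α = 0 := by
    have := hval 0 (by ring)
    have h3 : lam * α = 0 := by linear_combination this
    exact (mul_eq_zero.1 h3).resolve_left hE.lam0
  have hβ0 : β = 0 := by
    have := hval 1 (by ring)
    have h3 : (1 - lam) * β = 0 := by rw [hα0] at this; linear_combination this
    exact (mul_eq_zero.1 h3).resolve_left (sub_ne_zero.2 (Ne.symm hE.lam1))
  have hD0 : D lam = 0 := by
    have := hval lam (by ring)
    have h3 : D lam * (lam * (1 - lam)) = 0 := by
      rw [hα0, hβ0] at this; linear_combination this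
    exact (mul_eq_zero.1 h3).resolve_right
      (mul_ne_zero hE.lam0 (sub_ne_zero.2 (Ne.symm hE.lam1)))
  refine ⟨hD0, γ / 2, ?_, ?_⟩
  · rw [hDx, hα0, hβ0, map_div₀, map_ofNat]
    simp only [map_zero, zero_mul, zero_add]
    field_simp
  · have h3 : (2 * y) * D' y = (2 * y) * (algebraMap k K (γ / 2) * cub' lam x) := by
      rw [heq, hDx, hα0, hβ0, hD0, map_div₀, map_ofNat]
      simp only [map_zero, zero_mul, zero_add, add_zero]
      field_simp
    exact mul_left_cancel₀ (mul_ne_zero h2 hy0) h3

end Pool.Agent.Q178.DP
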